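import Pool.Agent.Helper30.NSL.Row
import Pool.Agent.Helper87.NSL.St

/-! NSLs, row ROW in the form of `Helper87/NSL/St.lean`. -/

set_option autoImplicit false

namespace Pool.Agent.Helper30.NSL

open Finset Filter Topology Matrix Pool.Agent.Helper69.RK Pool.Agent.Helper31.EC Pool.Agent.Helper31.EC.Sp
open Pool.Agent.Helper40.EL Pool.Agent.Helper89.LX Pool.Agent.Helper3.LF Pool.Agent.Helper84.MT
open Pool.Agent.Helper87.NSL (cndR cel KOpt KLb Gd ST_ROW)
open Pool.Agent.Helper38.PUR (LK prs)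
open Pool.Agent.Helper81.CP2 (ini)
open Pool.Agent.Helper76.DIM (pck)

noncomputable section

variable {S : Sp} {N g : ℕ} {ι : Type}

/-- good systems have good numbers -/
theorem gdn_of_gd {s : MSys S N (lin g) ι} (h : Gd s) : Gdn s (cel s.Q) := by
  intro ε hε
  obtain ⟨D, hD, hx⟩ := h ε hε
  obtain ⟨x, hx'⟩ := (gaq s.Q D).exists_optfK (LC.kz (fun k => fc (cel s.Q k))) (cndR s (cel s.Q) 0)
  exact ⟨D, x, hx'.1, fun l hl hK => hx x hx' l ⟨fun i => hl (some i), hK⟩⟩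

/-- ROW -/
theorem st_row : ST_ROW := by
  intro S N g r v s V τ hv _ _ hST hG hV hτ hfull ε hε
  have h1 : ∀ l : Lab S, l.DMf (cndR s (cel s.Q) 0) → (LC.kz fun k => fc (cel s.Q k)).ev l →
      (v : ℝ) ≤ H (up1 l ((pck s.Q (ini τ hv)).dg 1)) := by
    intro l hl hK
    have h2 := hfull l ⟨fun i => hl (some i), hK⟩
    have h3 : (prs s (ini τ hv)).Q = pck s.Q (ini τ hv) := prj_Q s (ini τ hv)
    rw [h3] at h2
    exact h2
  obtain ⟨W, D, A, a, w1, w2, w3, w4⟩ := rows_lit s (R := cel s.Q) (fun k => le_rfl) hτ hv hST (gdn_of_gd hG) h1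
    hV.1 hV.2 ε hε
  refine ⟨Lab.ofZ W, D, A, a, ?_, ⟨fun i => w3 (some i), Pool.Agent.Helper49.KL.kz_ofZ w1⟩, w4⟩
  filter_upwards [w2] with k hk
  exact fc_mono hk

end

end Pool.Agent.Helper30.NSL
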