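import Pool.Agent.Helper89.RAT.Exp

/-! The exponents of one coordinate of an admissible form are typically at most one, hence the mean of the positive part
of `1 - x` is at most `1 -` the mean of `x`. -/

set_option autoImplicit false

namespace Pool.Agent.Helper30.NSL

open Finset Filter Topology Matrix Pool.Agent.Helper69.RK Pool.Agent.Helper31.EC Pool.Agent.Helper31.EC.Sp
open Pool.Agent.Helper40.EL Pool.Agent.Helper89.LX Pool.Agent.Helper3.LF Pool.Agent.Helper84.MT Pool.Agent.Helper26.MZ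
open Pool.Agent.Helper95.LF
open Pool.Agent.Helper14.MC (gx vx vol_eq vx_UB vx_nonneg)
open Pool.Agent.Helper89.RAT

noncomputable section

variable {S : Sp} {M D : ℕ} {κ : Type} {A : κ → Part S} {Q : S.VV M}

/-- the form is typically small at the point -/
theorem phi_typ {y : ∀ k, FD (S.F k) (Mon M D)} (hy : (gaq Q D).Adf A y) (η : ℝ) (hη : 0 < η) :
    Tendsto (fun k => (y k).l.T.pb (fun ω => ¬ phi (S.dl 1 k) ((y k).g ω) (Q.v k ((y k).l.p.π ω)) ≤
      2 ^ (η * (S.F k).n))) UF (𝓝 0) := by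
  rw [Metric.tendsto_nhds]
  intro ε hε
  have hm : 0 < min (ε / 2) η := lt_min (by linarith) hη
  filter_upwards [hy _ hm] with k a
  have hn := (S.F k).pos
  rw [Real.dist_eq, sub_zero, abs_of_nonneg ((y k).l.T.pb_nonneg _)]
  have h1 : (y k).l.T.pb (fun ω => ¬ phi (S.dl 1 k) ((y k).g ω) (Q.v k ((y k).l.p.π ω)) ≤ 2 ^ (η * (S.F k).n)) ≤
      min (ε / 2) η := by
    refine le_trans (FSp.pb_mono _ ?_) a.2.2.1
    intro ω _ h2 h3
    apply h2
    have h4 : phi (S.dl 1 k) ((y k).g ω) (Q.v k ((y k).l.p.π ω)) ≤ 2 ^ (min (ε / 2) η * (S.F k).n) := h3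
    refine h4.trans (Real.rpow_le_rpow_of_exponent_le (by norm_num) ?_)
    exact mul_le_mul_of_nonneg_right (min_le_right _ _) hn.le
  have h2 : min (ε / 2) η ≤ ε / 2 := min_le_left _ _
  linarith

/-- THE EXPONENTS ARE TYPICALLY AT MOST ONE -/
theorem xz_typ (z : Fin M) {y : ∀ k, FD (S.F k) (Mon M D)} (hy : (gaq Q D).Adf A y) (η : ℝ) (hη : 0 < η) :
    Tendsto (fun k => (y k).l.T.pb (fun ω => ¬ xz Q z k ((y k).l.p.π ω) ((y k).g ω) ≤ 1 + η)) UF (𝓝 0) := by
  have hcM : (0 : ℝ) ≤ M * nn M D * Cm M D ^ 2 := by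
    have h1 := nn_one M D
    have h2 := Cm_one M D
    positivity
  have hη2 : 0 < η / 2 := by linarith
  have hs := (S.Sub_const (show (0 : ℝ) ≤ 1 + M * nn M D * Cm M D ^ 2 by linarith)).eventually_le hη2
  have hT := phi_typ hy (η / 2) hη2
  refine squeeze_zero' (Eventually.of_forall fun k => (y k).l.T.pb_nonneg _) ?_ hT
  filter_upwards [hs, hy 1 one_pos] with k a b
  refine FSp.pb_mono _ ?_
  intro ω hω hne h2
  apply hne
  have hn := (S.F k).pos
  have hc := (b.2.1 ω hω).1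
  have h1 := Jz_le Q z k ((y k).l.p.π ω) hc.pdM
  have h3 : (2 : ℝ) ^ (2 * (S.F k).n) * phi (S.dl 1 k) ((y k).g ω) (Q.v k ((y k).l.p.π ω)) ≤
      2 ^ ((2 + η / 2) * (S.F k).n) := by
    refine (mul_le_mul_of_nonneg_left h2 (by positivity)).trans (le_of_eq ?_)
    rw [← Real.rpow_add (by norm_num)]
    congr 1
    ring
  have h4 : (1 : ℝ) ≤ 2 ^ ((2 + η / 2) * (S.F k).n) := Real.one_le_rpow (by norm_num) (by positivity)
  have h5 : Jz Q z k ((y k).l.p.π ω) ((y k).g ω) ≤ 2 ^ ((2 + η) * (S.F k).n) := by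
    refine h1.trans ?_
    calc 1 + M * nn M D * Cm M D ^ 2 * (2 ^ (2 * (S.F k).n) * phi (S.dl 1 k) ((y k).g ω) (Q.v k ((y k).l.p.π ω)))
        ≤ 2 ^ ((2 + η / 2) * (S.F k).n) + M * nn M D * Cm M D ^ 2 * 2 ^ ((2 + η / 2) * (S.F k).n) :=
          add_le_add h4 (mul_le_mul_of_nonneg_left h3 hcM)
      _ = (1 + M * nn M D * Cm M D ^ 2) * 2 ^ ((2 + η / 2) * (S.F k).n) := by ring
      _ ≤ 2 ^ (η / 2 * (S.F k).n) * 2 ^ ((2 + η / 2) * (S.F k).n) := by
          apply mul_le_mul_of_nonneg_right _ (by positivity)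
          linarith
      _ = _ := by
          rw [← Real.rpow_add (by norm_num)]
          congr 1
          ring
  have h6 := one_le_Jz Q z k ((y k).l.p.π ω) (fun v => hc.psd.2 v)
  have h7 := Real.logb_le_logb_of_le (b := 2) (by norm_num) (by linarith) h5
  rw [Real.logb_rpow (by norm_num) (by norm_num)] at h7
  unfold xz
  rw [div_le_iff₀ (by positivity)]
  nlinarith

/-- the positive parts are bounded in mean -/
theorem max_UB (z : Fin M) {y : ∀ k, FD (S.F k) (Mon M D)} (hy : (gaq Q D).Adf A y) :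
    UB (fun k => ∑ ω, (y k).l.T.μ ω * max (1 - xz Q z k ((y k).l.p.π ω) ((y k).g ω)) 0) := by
  obtain ⟨C, hC, hb⟩ := xz_bd z hy
  have h1 : ∀ᶠ k in UF, 0 ≤ ∑ ω, (y k).l.T.μ ω * max (1 - xz Q z k ((y k).l.p.π ω) ((y k).g ω)) 0 ∧
      ∑ ω, (y k).l.T.μ ω * max (1 - xz Q z k ((y k).l.p.π ω) ((y k).g ω)) 0 ≤ 1 := by
    filter_upwards [hb] with k a
    refine avg_bd (F := (y k).l.T) fun ω hω => ⟨le_max_right _ _, max_le ?_ zero_le_one⟩
    linarith [(a ω hω).1]
  exact UB_of_nonneg_le (h1.mono fun k hk => hk.1) (h1.mono fun k hk => hk.2)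

/-- THE MEAN OF THE POSITIVE PART -/
theorem ul_max_le (z : Fin M) {y : ∀ k, FD (S.F k) (Mon M D)} (hy : (gaq Q D).Adf A y) :
    ul (fun k => ∑ ω, (y k).l.T.μ ω * max (1 - xz Q z k ((y k).l.p.π ω) ((y k).g ω)) 0) ≤ 1 - zx Q z y := by
  obtain ⟨C, hC, hb⟩ := xz_bd z hy
  have hUz := zv_UB z hy
  have hUm := max_UB z hy
  apply le_of_forall_pos_le_add
  intro η hη
  have e1 : (fun k => ∑ ω, (y k).l.T.μ ω * (1 - xz Q z k ((y k).l.p.π ω) ((y k).g ω) + η + C)) =
      fun k => (-1) * zv Q z y k + (1 + η + C) := by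
    funext k
    have e4 : ∀ ω, (y k).l.T.μ ω * (1 - xz Q z k ((y k).l.p.π ω) ((y k).g ω) + η + C) =
        (-1) * ((y k).l.T.μ ω * xz Q z k ((y k).l.p.π ω) ((y k).g ω)) + (y k).l.T.μ ω * (1 + η + C) := fun ω => by ring
    rw [Finset.sum_congr rfl fun ω _ => e4 ω, Finset.sum_add_distrib, ← Finset.sum_mul, ← Finset.mul_sum,
      Pool.Agent.Helper3.PR.sum_mu, one_mul]
    rfl
  have e2 : (fun k => ∑ ω, (y k).l.T.μ ω * (max (1 - xz Q z k ((y k).l.p.π ω) ((y k).g ω)) 0 + C)) =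
      fun k => (∑ ω, (y k).l.T.μ ω * max (1 - xz Q z k ((y k).l.p.π ω) ((y k).g ω)) 0) + C := by
    funext k
    rw [Finset.sum_congr rfl fun ω _ => mul_add _ _ _, Finset.sum_add_distrib, ← Finset.sum_mul,
      Pool.Agent.Helper3.PR.sum_mu, one_mul]
  have key := ul_avg_le (fun k => (y k).l.T)
    (fun k ω => 1 - xz Q z k ((y k).l.p.π ω) ((y k).g ω) + η + C)
    (fun k ω => max (1 - xz Q z k ((y k).l.p.π ω) ((y k).g ω)) 0 + C)
    (fun k ω => xz Q z k ((y k).l.p.π ω) ((y k).g ω) ≤ 1 + η) (fun _ => 0) tendsto_const_nhds (1 + C)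
    (xz_typ z hy η hη) (by
      filter_upwards with k ω _ hE
      have h1 : max (1 - xz Q z k ((y k).l.p.π ω) ((y k).g ω)) 0 ≤
          1 - xz Q z k ((y k).l.p.π ω) ((y k).g ω) + η := max_le (by linarith) (by linarith)
      linarith) (by
      filter_upwards [hb] with k a ω hω
      have h1 : max (1 - xz Q z k ((y k).l.p.π ω) ((y k).g ω)) 0 ≤ 1 :=
        max_le (by linarith [(a ω hω).1]) zero_le_one
      linarith) (by
      filter_upwards [hb] with k a ω hω
      linarith [(a ω hω).2]) (by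
      rw [e2]
      exact hUm.add (UB_const C)) (by
      rw [e1]
      exact (hUz.const_mul (-1)).add (UB_const _))
  rw [e1, e2, ul_add hUm (UB_const C), ul_add (hUz.const_mul (-1)) (UB_const _), ul_const_mul _ hUz, ul_const,
    ul_const] at key
  have h3 : zx Q z y = ul (zv Q z y) := rfl
  linarith

end

end Pool.Agent.Helper30.NSL
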