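import Pool.Agent.Helper7.GZ.Fo
import Pool.Agent.Helper84.MT.RowD

/-! Pull back of forms along maps of coordinates; for bijections the volume does not grow. -/

set_option autoImplicit false

namespace Pool.Agent.Helper30.NSL

open Finset Filter Topology Matrix Pool.Agent.Helper69.RK Pool.Agent.Helper31.EC Pool.Agent.Helper31.EC.Sp
open Pool.Agent.Helper40.EL Pool.Agent.Helper89.LX Pool.Agent.Helper3.LF Pool.Agent.Helper84.MT
open Pool.Agent.Helper7.GZ Pool.Agent.Helper26.MZ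
open Pool.Agent.Helper95.LF
open Pool.Agent.Helper3.PR (cutm cutm_cpd cutFD cut_typ)
open Pool.Agent.Helper14.MC (adf_sub gx vx vol_eq vx_UB vx_nonneg)

noncomputable section

section det

variable {M N D : ℕ}

/-- a map of coordinates -/
def cpc (c : Fin N → Fin M) : Fin N → MvPolynomial (Fin M) ℝ := fun a => MvPolynomial.X (c a)

theorem cpc_deg (c : Fin N → Fin M) (i : Fin N) : (cpc c i).totalDegree ≤ 1 := (MvPolynomial.totalDegree_X _).le

theorem cpc_eval (c : Fin N → Fin M) (x : Fin M → ℝ) (i : Fin N) : MvPolynomial.eval x (cpc c i) = x (c i) :=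
  MvPolynomial.eval_X _

theorem cpc_dP (c : Fin N → Fin M) (x e : Fin M → ℝ) : dP (cpc c) x e = fun i => e (c i) := by
  classical
  funext i
  unfold dP cpc
  rw [eval_dir2, Finset.sum_eq_single (c i)]
  · rw [MvPolynomial.pderiv_X_self, map_one, mul_one]
  · intro b _ hb
    rw [MvPolynomial.pderiv_X_of_ne hb.symm, map_zero, mul_zero]
  · intro h
    exact absurd (Finset.mem_univ _) h

/-- size of the pull back -/
theorem phi_cpc (c : Fin N → Fin M) {B : Matrix (Mon N D) (Mon N D) ℝ} (hB : PdM B) {r : ℝ} (hr : 0 < r)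
    (x : Fin M → ℝ) : phi r (sbf D (cpc c) r B) x ≤ nn M D * (nn N D * ((Cu D * Cm N D * (1 + 1) ^ D) ^ 2 *
      phi r B (fun i => x (c i)))) := by
  refine phi_sbf (cpc c) (cpc_deg c) (by rw [mul_one]) B hB hr zero_le_one x _ ?_
  intro j i
  rw [cpc_eval, one_mul]
  unfold nodp
  rw [add_sub_cancel_left, abs_mul, abs_of_pos hr]
  have h1 := nod_le_one (D := D) (j (c i) : ℕ) (by have := (j (c i)).2; omega)
  rw [abs_of_nonneg h1.1]
  nlinarith [h1.2]

/-- gradients of the pull back -/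
theorem Jq_cpc (c : Fin N → Fin M) {B : Matrix (Mon N D) (Mon N D) ℝ} (hB : ∀ x, 0 ≤ x ⬝ᵥ (B *ᵥ x)) (r : ℝ)
    (x e : Fin M → ℝ) : (fun i => e (c i)) ⬝ᵥ (Jq r B (fun i => x (c i)) *ᵥ fun i => e (c i)) ≤
      e ⬝ᵥ (Jq r (sbf D (cpc c) r B) x *ᵥ e) := by
  have h1 := Jq_sbf (cpc c) (cpc_deg c) (DD := D) (by rw [mul_one]) B hB r r x e
  rw [cpc_dP] at h1
  have e1 : (fun i => MvPolynomial.eval x (cpc c i)) = fun i => x (c i) := funext fun i => cpc_eval c x i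
  rw [e1] at h1
  exact h1

/-- quadratic forms of permuted matrices -/
theorem qf_sub (e : Fin N ≃ Fin M) (A : Matrix (Fin N) (Fin N) ℝ) (v : Fin M → ℝ) :
    v ⬝ᵥ (A.submatrix e.symm e.symm *ᵥ v) = (fun i => v (e i)) ⬝ᵥ (A *ᵥ fun i => v (e i)) := by
  unfold dotProduct Matrix.mulVec dotProduct
  rw [← Equiv.sum_comp e (fun i => v i * ∑ j, A.submatrix e.symm e.symm i j * v j)]
  refine Finset.sum_congr rfl fun i _ => ?_
  rw [← Equiv.sum_comp e (fun j => A.submatrix e.symm e.symm (e i) j * v j)]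
  congr 1
  refine Finset.sum_congr rfl fun j _ => ?_
  rw [Matrix.submatrix_apply, Equiv.symm_apply_apply, Equiv.symm_apply_apply]

/-- VOLUME of the pull back along a bijection -/
theorem GQ_cpc (e : Fin N ≃ Fin M) {B : Matrix (Mon N D) (Mon N D) ℝ} (hs : B.IsSymm)
    (hB : ∀ x, 0 ≤ x ⬝ᵥ (B *ᵥ x)) (r : ℝ) (x : Fin M → ℝ) :
    GQ r B (fun i => x (e i)) ≤ GQ r (1 + sbf D (cpc e) r B) x := by
  have hs0 : ∀ x : Mon M D → ℝ, 0 ≤ x ⬝ᵥ ((1 + sbf D (cpc e) r B) *ᵥ x) := fun x => by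
    rw [dv_add, Matrix.one_mulVec]
    have h1 := self_nonneg' x
    have h2 := sbf_nonneg (DD := D) (cpc e) r hB x
    linarith
  have hss : (1 + sbf D (cpc e) r B).IsSymm := Matrix.isSymm_one.add (sbf_symm (cpc e) r hs)
  have hJp : PdM (1 + Jq r B (fun i => x (e i))) := one_Jq_pd r hs hB _
  have h1 : GQ r B (fun i => x (e i)) = ((1 + Jq r B (fun i => x (e i))).submatrix e.symm e.symm).det :=
    (Matrix.det_submatrix_equiv_self e.symm _).symm
  rw [h1]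
  refine det_mono ⟨?_, fun v hv => ?_⟩ (one_Jq_symm r hss _) fun v => ?_
  · unfold Matrix.IsSymm
    rw [Matrix.transpose_submatrix, hJp.1.eq]
  · rw [qf_sub]
    apply hJp.2
    intro h0
    apply hv
    funext i
    have h2 := congrFun h0 (e.symm i)
    have h3 : v (e (e.symm i)) = 0 := h2
    rwa [Equiv.apply_symm_apply] at h3
  · rw [qf_sub, dv_add, dv_add, one_dv, one_dv]
    have h2 : (fun i => v (e i)) ⬝ᵥ (fun i => v (e i)) = v ⬝ᵥ v := by
      unfold dotProduct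
      exact Equiv.sum_comp e (fun i => v i * v i)
    have h3 := Jq_cpc (D := D) e hB r x v
    have h4 : v ⬝ᵥ (Jq r (sbf D (cpc e) r B) x *ᵥ v) ≤ v ⬝ᵥ (Jq r (1 + sbf D (cpc e) r B) x *ᵥ v) := by
      apply Jq_mono
      intro y
      rw [dv_add, Matrix.one_mulVec]
      have := self_nonneg' y
      linarith
    rw [h2]
    linarith

end det

variable {S : Sp} {M N D : ℕ} {κ κ' : Type}

/-- the pull back of a form -/
def cm (c : Fin N → Fin M) (y : ∀ k, FD (S.F k) (Mon N D)) (k : ℕ) (ω : (y k).l.T.Ω) : Matrix (Mon M D) (Mon M D) ℝ :=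
  1 + sbf D (cpc c) (S.dl 1 k) ((y k).g ω)

/-- the label with the pull back, cut off -/
def cFD (Q : S.VV M) (c : Fin N → Fin M) (y : ∀ k, FD (S.F k) (Mon N D)) : ∀ k, FD (S.F k) (Mon M D) :=
  cutFD (gaq Q D) (lb y) (cm c y) fun k ω ω' a b c d => by
    unfold cm
    rw [((y k).meas ω ω' a b c d).1]

variable {Q : S.VV M} {P : S.VV N} {c : Fin N → Fin M} {y : ∀ k, FD (S.F k) (Mon N D)}

theorem cm_ge {B : κ → Part S} (hy : (gaq P D).Adf B y) : ∀ᶠ k in UF, ∀ ω, (lb y k).T.μ ω ≠ 0 →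
    (cm c y k ω).IsSymm ∧ ∀ x, x ⬝ᵥ x ≤ qf (cm c y k ω) x := by
  filter_upwards [hy 1 one_pos] with k hk ω hω
  have h1 := (hk.2.1 ω hω).1
  exact RZ.one_sbf_ge (DD := D) h1.1 h1.psd.2

theorem cm_phi {B : κ → Part S} (hP : ∀ k ω a, P.v k ω a = Q.v k ω (c a)) (hy : (gaq P D).Adf B y) :
    ∃ K : ℕ → ℝ, S.Sub K ∧ Typ (S := (lb y).sp) (fun k (ω : (y k).l.T.Ω) =>
      (gaq Q D).φ k ((y k).l.p.π ω) (cm c y k ω) ≤ K k) := by
  obtain ⟨K, hK, hT⟩ := adf_sub hy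
  obtain ⟨K0, hK0, hone⟩ := (gaq Q D).one
  have hnn1 := nn_one M D
  have hnn2 := nn_one N D
  have hCu := Cu_one D
  have hCm := Cm_one N D
  refine ⟨fun k => K0 k + nn M D * (nn N D * (Cu D * Cm N D * (1 + 1) ^ D) ^ 2) * K k,
    hK0.add ((S.Sub_const (by positivity)).mul hK), typ_mono hT ?_⟩
  filter_upwards [hone, hy 1 one_pos] with k k1 k2 ω hω h1
  have hB := (k2.2.1 ω hω).1
  have hsup := (y k).l.p.supp ω hω
  have h2 : phi (S.dl 1 k) ((y k).g ω) (P.v k ((y k).l.p.π ω)) ≤ K k := h1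
  have e1 : P.v k ((y k).l.p.π ω) = fun i => Q.v k ((y k).l.p.π ω) (c i) := funext fun a => hP k _ a
  rw [e1] at h2
  have h3 := phi_cpc c hB.pdM (S.dl_pos 1 k) (Q.v k ((y k).l.p.π ω))
  have h4 : phi (S.dl 1 k) (1 : Matrix (Mon M D) (Mon M D) ℝ) (Q.v k ((y k).l.p.π ω)) ≤ K0 k := k1 _ hsup
  show phi (S.dl 1 k) (cm c y k ω) (Q.v k ((y k).l.p.π ω)) ≤ _
  have e2 : phi (S.dl 1 k) (cm c y k ω) (Q.v k ((y k).l.p.π ω)) =
      phi (S.dl 1 k) (1 : Matrix (Mon M D) (Mon M D) ℝ) (Q.v k ((y k).l.p.π ω)) +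
        phi (S.dl 1 k) (sbf D (cpc c) (S.dl 1 k) ((y k).g ω)) (Q.v k ((y k).l.p.π ω)) := phi_add _ _ _ _
  rw [e2]
  have h5 : nn M D * (nn N D * ((Cu D * Cm N D * (1 + 1) ^ D) ^ 2 *
      phi (S.dl 1 k) ((y k).g ω) (fun i => Q.v k ((y k).l.p.π ω) (c i)))) ≤
      nn M D * (nn N D * (Cu D * Cm N D * (1 + 1) ^ D) ^ 2) * K k := by
    have h6 : (0 : ℝ) ≤ nn M D * (nn N D * (Cu D * Cm N D * (1 + 1) ^ D) ^ 2) := by positivity
    calc nn M D * (nn N D * ((Cu D * Cm N D * (1 + 1) ^ D) ^ 2 *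
        phi (S.dl 1 k) ((y k).g ω) (fun i => Q.v k ((y k).l.p.π ω) (c i)))) =
          nn M D * (nn N D * (Cu D * Cm N D * (1 + 1) ^ D) ^ 2) *
        phi (S.dl 1 k) ((y k).g ω) (fun i => Q.v k ((y k).l.p.π ω) (c i)) := by ring
      _ ≤ _ := mul_le_mul_of_nonneg_left h2 h6
  linarith

/-- THE PULL BACK IS ADMISSIBLE -/
theorem cFD_adf [Finite κ'] {B : κ → Part S} {A : κ' → Part S} (hP : ∀ k ω a, P.v k ω a = Q.v k ω (c a))
    (hy : (gaq P D).Adf B y) (hl : (lb y).DMf A) : (gaq Q D).Adf A (cFD Q c y) := by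
  obtain ⟨K, hK, hT⟩ := cm_phi hP hy
  exact cut_adf (lb y) hl _ _ (cm_ge hy) K hK hT

theorem cFD_typ {B : κ → Part S} (hP : ∀ k ω a, P.v k ω a = Q.v k ω (c a)) (hy : (gaq P D).Adf B y) :
    Typ (S := (lb y).sp) (fun k (ω : (y k).l.T.Ω) => (cFD Q c y k).g ω = cm c y k ω) := by
  obtain ⟨K, hK, hT⟩ := cm_phi hP hy
  refine typ_mono (cut_typ (Φ := gaq Q D) (lb y) (cm c y) (cm_ge hy) K hK hT) ?_
  exact Eventually.of_forall fun k ω _ h => cutm_pos h

/-- THE VOLUME OF THE PULL BACK ALONG A BIJECTION -/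
theorem vol_cFD [Finite κ'] {B : κ → Part S} {A : κ' → Part S} (e : Fin N ≃ Fin M)
    (hP : ∀ k ω a, P.v k ω a = Q.v k ω (e a)) (hy : (gaq P D).Adf B y) (hl : (lb y).DMf A) :
    vol Q D (cFD Q e y) ≤ vol P D y := by
  have hx : (gaq Q D).Adf A (cFD Q e y) := cFD_adf hP hy hl
  obtain ⟨C, hC, hbd⟩ := gx_bd hy
  obtain ⟨C', -, hbd'⟩ := gx_bd hx
  have hUx := vx_UB hx
  have hUy := vx_UB hy
  have hT : Tendsto (fun k => (y k).l.T.pb (fun ω => ¬ (cFD Q e y k).g ω = cm e y k ω)) UF (𝓝 0) := cFD_typ hP hy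
  have key := ul_avg_le (fun k => (y k).l.T) (fun k ω => gx Q k ((cFD Q e y k).l.p.π ω) ((cFD Q e y k).g ω))
    (fun k ω => gx P k ((y k).l.p.π ω) ((y k).g ω))
    (fun k ω => (cFD Q e y k).g ω = cm e y k ω) (fun _ => 0) tendsto_const_nhds C hT (by
      filter_upwards [hy 1 one_pos] with k h2 ω hω hE
      have hB := (h2.2.1 ω hω).1
      have hn := (S.F k).pos
      have e1 : P.v k ((y k).l.p.π ω) = fun i => Q.v k ((y k).l.p.π ω) (e i) := funext fun a => hP k _ a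
      have h3 := GQ_cpc e hB.1 (fun v => hB.psd.2 v) (S.dl 1 k) (Q.v k ((y k).l.p.π ω))
      have a1 : 1 ≤ GQ (S.dl 1 k) ((y k).g ω) (P.v k ((y k).l.p.π ω)) := one_le_GQ _ hB.1 (fun v => hB.psd.2 v) _
      rw [hE]
      show gx P k ((y k).l.p.π ω) ((y k).g ω) ≤ gx Q k ((y k).l.p.π ω) (cm e y k ω) + 0
      rw [add_zero]
      unfold gx
      rw [e1] at a1 ⊢
      exact div_le_div_of_nonneg_right (Real.logb_le_logb_of_le (by norm_num) (by linarith) h3) (by positivity)) (by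
      filter_upwards [hbd] with k h2 ω hω
      exact (h2 ω hω).2) (by
      filter_upwards [hbd'] with k h2 ω hω
      exact (h2 ω hω).1) hUy hUx
  have e2 : (N : ℝ) = M := by
    have h1 := Fintype.card_congr e
    rw [Fintype.card_fin, Fintype.card_fin] at h1
    exact_mod_cast h1
  rw [vol_eq, vol_eq, e2]
  have h3 : ul (vx P y) ≤ ul (vx Q (cFD Q e y)) := key
  linarith

end

end Pool.Agent.Helper30.NSL
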