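import Pool.Agent.Helper30.NSL.Mx
import Pool.Agent.Helper30.NSL.Prm
import Pool.Agent.Helper81.CP2.Cut
import Pool.Agent.Helper3.KL.Std
import Pool.Agent.Helper66.NJ.Cnt
import Pool.Agent.Helper26.MT.Zw
import Pool.Agent.Helper89.LX.Njg

/-! NSLs, ROW: rows over a literal K-label which refines a given literal K-label. Let `Q_σ`, `σ = (τ_0, .., τ_(v-1))`, be
full over every K-label of the window `0`. Optimal K-forms of the coordinates `τ_0, .., τ_j` for `v ≤ j`, all over one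
literal K-label `W`, have remaining exponents in the direction of `τ_j` with
`v + ∑ a_j ≤ H(Q_1 | W) + ε`. -/

set_option autoImplicit false

namespace Pool.Agent.Helper30.NSL

open Finset Filter Topology Matrix Pool.Agent.Helper69.RK Pool.Agent.Helper31.EC Pool.Agent.Helper31.EC.Sp
open Pool.Agent.Helper40.EL Pool.Agent.Helper89.LX Pool.Agent.Helper3.LF Pool.Agent.Helper84.MT Pool.Agent.Helper26.MZ
open Pool.Agent.Helper95.LF
open Pool.Agent.Helper33.LIT Pool.Agent.Helper49.KL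
open Pool.Agent.Helper14.MC (gx vx vol_eq vx_UB vx_nonneg)
open Pool.Agent.Helper36.AM (STu)
open Pool.Agent.Helper87.NSL (cndR)
open Pool.Agent.Helper76.DIM (pck)
open Pool.Agent.Helper81.CP2 (pre ini Rows HRw)
open Pool.Agent.Helper66.NJ (Kn1 gG gG_kn gG_eq zFD opt_zFD exists_carrier)
open Pool.Agent.Helper89.RAT (xz zv zx xz_bd zv_UB)
open Pool.Agent.Helper89.RAK (KC volz_P0 slf_K volK_le)
open Pool.Agent.Helper41.VC (vv_ext)

noncomputable section

variable {S : Sp} {N m D g : ℕ} {E : ℕ → ℕ} {ι : Type}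

/-! ### projections -/

/-- the projection of a system to some of the coordinates -/
def prj (s : MSys S N (lin g) ι) (f : Fin m → Fin N) : MSys S m (lin g) ι :=
  s.img (PMap.coo _ f) le_rfl (fun D => le_of_eq (by rw [one_mul]))

theorem prj_Q (s : MSys S N (lin g) ι) (f : Fin m → Fin N) : (prj s f).Q = pck s.Q f := by
  apply vv_ext
  funext k ω
  exact PMap.coo_ev f k ω (s.Q.v k ω)

theorem pck_cell (Q : S.VV N) (f : Fin m → Fin N) (a : ℝ) (k : ℕ) :
    Setoid.ker (Q.cellv a k) ≤ Setoid.ker ((pck Q f).cellv a k) := by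
  intro ω ω' h
  have h1 : Q.cellv a k ω = Q.cellv a k ω' := h
  show (pck Q f).cellv a k ω = (pck Q f).cellv a k ω'
  funext i
  exact congrFun h1 (f i)

/-- the digits of some coordinates are known to the digits of the point -/
theorem pck_dg_le (Q : S.VV N) (f : Fin m → Fin N) (a : ℝ) : (pck Q f).dg a ≤ Q.dg a := by
  apply VV.dg_le_dg _ _ a a (fun _ _ => True) Typ_true (fun _ => 1) (S.Sub_const zero_le_one)
  refine Eventually.of_forall fun k ω ω' _ _ _ _ _ hd j => ?_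
  rw [one_mul]
  exact hd (f j)

/-- the digits of all coordinates -/
theorem pck_dg_ge (Q : S.VV N) {f : Fin m → Fin N} (hf : Function.Surjective f) (a : ℝ) : Q.dg a ≤ (pck Q f).dg a := by
  apply VV.dg_le_dg _ _ a a (fun _ _ => True) Typ_true (fun _ => 1) (S.Sub_const zero_le_one)
  refine Eventually.of_forall fun k ω ω' _ _ _ _ _ hd j => ?_
  rw [one_mul]
  obtain ⟨i, rfl⟩ := hf j
  exact hd i

/-- entropy of the point over a label -/
theorem H_pnt (Q : S.VV N) (l : Lab S) :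
    H (up1 l (Q.dg 1)) = ul (fun k => h ((l k).p.map (pcd Q k)) (l k).v / (S.F k).n) := by
  have e0 : Q.dg 1 = cl (Q.bdd 1).toInf := io_eq (Q.bdd 1)
  rw [e0]
  exact H_up1_cl l _

/-! ### the numbers -/

/-- THE NUMBER OF A GOOD SYSTEM: K-volumes are at most the entropies over all K-labels, up to `ε` -/
def Gdn (s : MSys S N E ι) (R : ∀ k, Setoid (S.F k).Ω) : Prop := ∀ ε : ℝ, 0 < ε →
  ∃ (D : ℕ) (x : ∀ k, FD (S.F k) (Mon N D)), (gaq s.Q D).AdfK (LC.kz fun k => fc (R k)) (cndR s R 0) x ∧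
    ∀ l : Lab S, l.DMf (cndR s R 0) → (LC.kz fun k => fc (R k)).ev l → vol s.Q D x ≤ H (up1 l (s.Q.dg 1)) + ε

/-- volumes are at most the dimension -/
theorem vol_le_dim {κ : Type} {A : κ → Part S} {Q : S.VV N} {x : ∀ k, FD (S.F k) (Mon N D)} (hx : (gaq Q D).Adf A x) :
    vol Q D x ≤ N := by
  have h1 := vx_nonneg hx
  have h2 : 0 ≤ ul (vx Q x) := const_le_ul (vx_UB hx) h1
  rw [vol_eq]
  linarith

/-- the structure theorem in lower dimensions -/
theorem row_low [Finite ι] (s : MSys S N (lin g) ι) {R : ∀ k, Setoid (S.F k).Ω}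
    (hR : ∀ k, R k ≤ Setoid.ker (s.Q.cellv 1 k)) (hST : STu m) (f : Fin m → Fin N) :
    ∃ D : ℕ, 1 ≤ D ∧ ∀ x : ∀ k, FD (S.F k) (Mon m D),
      (gaq (pck s.Q f) D).OptfK (LC.kz fun k => fc (R k)) (cndR s R 0) x → ∀ l : Lab S, l.DMf (cndR s R 0) →
        (LC.kz fun k => fc (R k)).ev l → vol (pck s.Q f) D x ≤ H (up1 l ((pck s.Q f).dg 1)) := by
  obtain ⟨D₁, hD⟩ := hST g
  refine ⟨max D₁ 1, le_max_right _ _, fun x hx l hl hK => ?_⟩
  have h1 : ∀ k, R k ≤ Setoid.ker ((prj s f).Q.cellv 1 k) := by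
    intro k
    rw [prj_Q]
    exact (hR k).trans (pck_cell s.Q f 1 k)
  have h2 : cndR (prj s f) R 0 = cndR s R 0 := by
    funext i
    cases i <;> rfl
  have h3 : (gaq (prj s f).Q (max D₁ 1)).OptfK (LC.kz fun k => fc (R k)) (cndR (prj s f) R 0) x := by
    rw [h2, prj_Q]
    exact hx
  have h4 := Pool.Agent.Helper3.KL.stkd_lab (hD _ (le_max_left _ _)) (prj s f) h1 (l := l) (fun i => hl (some i)) hK h3
  rw [prj_Q] at h4
  exact h4

/-- the number of the good system, in any order of the coordinates -/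
theorem row_top [Finite ι] (s : MSys S N (lin g) ι) {R : ∀ k, Setoid (S.F k).Ω} (ht : Gdn s R) (f : Fin m → Fin N)
    (hf : Function.Bijective f) (ε : ℝ) (hε : 0 < ε) :
    ∃ D : ℕ, 1 ≤ D ∧ ∀ x : ∀ k, FD (S.F k) (Mon m D),
      (gaq (pck s.Q f) D).OptfK (LC.kz fun k => fc (R k)) (cndR s R 0) x → ∀ l : Lab S, l.DMf (cndR s R 0) →
        (LC.kz fun k => fc (R k)).ev l → vol (pck s.Q f) D x ≤ H (up1 l ((pck s.Q f).dg 1)) + ε := by
  obtain ⟨D, y, hy, hn⟩ := ht ε hε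
  have hH : ∀ l : Lab S, H (up1 l (s.Q.dg 1)) ≤ H (up1 l ((pck s.Q f).dg 1)) := fun l =>
    H_mono (up1_mono l (pck_dg_ge s.Q hf.2 1))
  have hmN : (N : ℝ) = m := by
    have h1 := Fintype.card_congr (Equiv.ofBijective f hf)
    rw [Fintype.card_fin, Fintype.card_fin] at h1
    exact_mod_cast h1.symm
  rcases Nat.eq_zero_or_pos D with h0 | h0
  · subst h0
    refine ⟨1, le_rfl, fun x hx l hl hK => ?_⟩
    have h1 := hn l hl hK
    rw [vol_deg_zero] at h1
    have h2 := vol_le_dim hx.1.1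
    have h3 := hH l
    rw [hmN] at h1
    linarith
  · refine ⟨D, h0, fun x hx l hl hK => ?_⟩
    set e : Fin N ≃ Fin m := (Equiv.ofBijective f hf).symm with he
    have hP : ∀ k ω a, s.Q.v k ω a = (pck s.Q f).v k ω (e a) := by
      intro k ω a
      show s.Q.v k ω a = s.Q.v k ω (f (e a))
      have h1 : f (e a) = a := (Equiv.ofBijective f hf).apply_symm_apply a
      rw [h1]
    have hdm : (lb y).DMf (cndR s R 0) := Gau.AdfK.dm _ hy
    have h1 : (gaq (pck s.Q f) D).AdfK (LC.kz fun k => fc (R k)) (cndR s R 0) (cFD (pck s.Q f) e y) :=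
      ⟨cFD_adf hP hy.1 hdm, hy.2⟩
    have h2 := volK_le hx h1
    have h3 := vol_cFD (A := cndR s R 0) e hP hy.1 hdm
    have h4 := hn l hl hK
    have h5 := hH l
    linarith

/-! ### one step -/

/-- ONE STEP: the exponent in the direction of the last coordinate of an optimal form -/
theorem row_step {κ : Type} {A : κ → Part S} {Q : S.VV N} {R : ∀ k, Setoid (S.F k).Ω} (hD : 1 ≤ D)
    {τ : Fin N → Fin N} (j : Fin N) (hR : ∀ k, R k ≤ Setoid.ker ((pck Q (pre τ j)).cellv 1 k))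
    {x : ∀ k, FD (S.F k) (Mon ((j : ℕ) + 1) D)}
    (hx : (gaq (pck Q (pre τ j)) D).OptfK (LC.kz fun k => fc (R k)) A x) :
    H (up1 (lb x) ((pck Q (ini τ j.2.le)).dg 1)) + 1 ≤ vol (pck Q (pre τ j)) D x +
      zx (pck Q (pre τ j)) (Fin.last j) x := by
  have h1 := (slf_K (gaq (pck Q (pre τ j)) D) hx).dmz hx.1.1 hR (Fin.last (j : ℕ))
  exact volz_P0 hD hx.1.1 (Fin.last (j : ℕ)) h1 (pck Q (ini τ j.2.le)) Fin.castSucc
    (fun i => (Fin.castSucc_lt_last i).ne) (fun k ω i => rfl)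

/-! ### rows -/

/-- eventually at most the limit plus `e` -/
theorem ev_le_of_ul {f : ℕ → ℝ} (hf : UB f) {a : ℝ} (ha : ul f ≤ a) (e : ℝ) (he : 0 < e) : ∀ᶠ k in UF, f k ≤ a + e := by
  filter_upwards [(ul_tendsto hf).eventually (gt_mem_nhds (show ul f < a + e by linarith))] with k hk using hk.le

/-- ROWS over a literal K-label which refines the literal K-label `V1` -/
theorem rows_lit [Finite ι] (s : MSys S N (lin g) ι) {R : ∀ k, Setoid (S.F k).Ω}
    (hR : ∀ k, R k ≤ Setoid.ker (s.Q.cellv 1 k)) {τ : Fin N → Fin N} (hτ : Function.Surjective τ) {v : ℕ} (hv : v ≤ N)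
    (hST : ∀ m, m < N → STu m) (ht : Gdn s R)
    (hfull : ∀ l : Lab S, l.DMf (cndR s R 0) → (LC.kz fun k => fc (R k)).ev l →
      (v : ℝ) ≤ H (up1 l ((pck s.Q (ini τ hv)).dg 1)))
    {V1 : ∀ k, Setoid (S.F k).Ω} (h1 : ∀ᶠ k in UF, R k ⊓ (S.F k).Z ≤ V1 k) (h2 : (Lab.ofZ V1).DMf (cndR s R 0))
    (ε : ℝ) (hε : 0 < ε) : ∃ (W : ∀ k, Setoid (S.F k).Ω) (D : Fin N → ℕ)
      (A : ∀ (j : Fin N) (k : ℕ), (Lab.ofZ W k).T.Ω → Matrix (Mon ((j : ℕ) + 1) (D j)) (Mon ((j : ℕ) + 1) (D j)) ℝ)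
      (a : Fin N → ℝ), (∀ᶠ k in UF, R k ⊓ (S.F k).Z ≤ W k) ∧ (∀ᶠ k in UF, W k ≤ V1 k) ∧
        (Lab.ofZ W).DMf (cndR s R 0) ∧ Rows s.Q τ v (Lab.ofZ W) D A a ε := by
  have hτi : Function.Injective τ := Finite.injective_iff_surjective.mpr hτ
  have hbud : ∀ (W : ∀ k, Setoid (S.F k).Ω) (b : ℝ), b ≤ H (up1 (Lab.ofZ W) (s.Q.dg 1)) → ∀ e : ℝ, 0 < e →
      ∀ᶠ k in UF, (b - e) * (S.F k).n ≤ h ((Lab.ofZ W k).p.map (pcd s.Q k)) (Lab.ofZ W k).v := by
    intro W b hb e he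
    rw [H_pnt] at hb
    have hU : UB (fun k => h ((Lab.ofZ W k).p.map (pcd s.Q k)) (Lab.ofZ W k).v / (S.F k).n) := by
      refine UB.sandwich (UB_const 0) (pcd_Bd s.Q) ?_ ?_
      · exact Eventually.of_forall fun k => div_nonneg (h_nonneg _ _) (S.F k).pos.le
      · refine Eventually.of_forall fun k => div_le_div_of_nonneg_right ?_ (S.F k).pos.le
        rw [← (Lab.ofZ W k).p.H_map]
        exact h_le_H _ _
    filter_upwards [(ul_tendsto hU).eventually (lt_mem_nhds (show b - e < _ by linarith))] with k hk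
    exact ((lt_div_iff₀ (S.F k).pos).mp hk).le
  rcases Nat.lt_or_ge v N with hvN | hvN
  swap
  · -- no rows
    have hvN' : v = N := le_antisymm hv hvN
    have hno : ∀ j : Fin N, ¬ v ≤ (j : ℕ) := fun j hj => absurd j.2 (by omega)
    refine ⟨V1, fun _ => 0, fun _ _ _ => 0, fun _ => 0, h1, Eventually.of_forall fun k => le_rfl, h2,
      fun j hj => absurd hj (hno j), fun j hj => absurd hj (hno j), fun j hj => absurd hj (hno j),
      fun j hj => absurd hj (hno j), fun j hj => absurd hj (hno j), fun e he => ?_⟩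
    have h3 := hfull (Lab.ofZ V1) h2 (kz_ofZ h1)
    have h4 : H (up1 (Lab.ofZ V1) ((pck s.Q (ini τ hv)).dg 1)) ≤ H (up1 (Lab.ofZ V1) (s.Q.dg 1)) :=
      H_mono (up1_mono _ (pck_dg_le s.Q _ 1))
    have h5 := hbud V1 (v + ∑ j ∈ univ.filter (fun j : Fin N => v ≤ j), (0 : ℝ) - ε) (by
      rw [Finset.sum_const_zero]
      linarith) e he
    exact h5
  -- the numbers of the rows
  have hrow : ∀ j : Fin N, ∃ D : ℕ, 1 ≤ D ∧ ∀ x : ∀ k, FD (S.F k) (Mon ((j : ℕ) + 1) D),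
      (gaq (pck s.Q (pre τ j)) D).OptfK (LC.kz fun k => fc (R k)) (cndR s R 0) x → ∀ l : Lab S,
        l.DMf (cndR s R 0) → (LC.kz fun k => fc (R k)).ev l →
          vol (pck s.Q (pre τ j)) D x ≤ H (up1 l ((pck s.Q (pre τ j)).dg 1)) +
            (if (j : ℕ) + 1 = N then ε else 0) := by
    intro j
    by_cases hj : (j : ℕ) + 1 = N
    · have hb : Function.Bijective (pre τ j) := by
        have hi : Function.Injective (pre τ j) := by
          intro a b hab
          have h3 := hτi hab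
          exact Fin.ext (congrArg (fun i : Fin N => (i : ℕ)) h3)
        refine ⟨hi, ?_⟩
        intro p
        obtain ⟨i, hi'⟩ := hτ p
        exact ⟨⟨i, by omega⟩, hi'⟩
      obtain ⟨D, hD, hx⟩ := row_top s ht (pre τ j) hb ε hε
      refine ⟨D, hD, fun x h3 l h4 h5 => ?_⟩
      rw [if_pos hj]
      exact hx x h3 l h4 h5
    · obtain ⟨D, hD, hx⟩ := row_low s hR (hST _ (lt_of_le_of_ne j.2 hj)) (pre τ j)
      refine ⟨D, hD, fun x h3 l h4 h5 => ?_⟩
      rw [if_neg hj, add_zero]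
      exact hx x h3 l h4 h5
  choose D hD hvol using hrow
  have : Nonempty (Fin N) := ⟨⟨v, hvN⟩⟩
  obtain ⟨W0, w1, w2, w3⟩ := exists_carrier (cndR s R 0) R (fun j : Fin N => Mon ((j : ℕ) + 1) (D j))
    (fun j => gaq (pck s.Q (pre τ j)) (D j))
  choose G hG hGo using w3
  obtain ⟨W, hW⟩ : ∃ W : ∀ k, Setoid (S.F k).Ω, W = fun k => W0 k ⊓ V1 k := ⟨_, rfl⟩
  have u1 : ∀ᶠ k in UF, R k ⊓ (S.F k).Z ≤ W k := by
    filter_upwards [w1, h1] with k a b
    rw [hW]
    exact le_inf a b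
  have u2 : ∀ k, W k ≤ W0 k := fun k => by
    rw [hW]
    exact inf_le_left
  have u3 : ∀ k, W k ≤ V1 k := fun k => by
    rw [hW]
    exact inf_le_right
  have u4 : (Lab.ofZ W).DMf (cndR s R 0) := by
    rw [Lab.ofZ_DMf]
    intro i
    have e1 : (fun k => (fc (W k) : FL (S.F k))) = fun k => fc (W0 k) ⊔ fc (V1 k) := by
      funext k
      rw [hW]
      exact fc_inf _ _
    rw [e1]
    exact PLe.sup_le ((Lab.ofZ_DMf W0).mp w2 i) ((Lab.ofZ_DMf V1).mp h2 i)
  have hxo : ∀ j : Fin N, (gaq (pck s.Q (pre τ j)) (D j)).OptfK (LC.kz fun k => fc (R k)) (cndR s R 0)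
      (fun k => zFD (W k) (G j k)) := fun j =>
    opt_zFD _ (hG j) (hGo j) (Eventually.of_forall u2) u1 u4
  have hKl : (LC.kz fun k => fc (R k)).ev (Lab.ofZ W) := kz_ofZ u1
  have hRp : ∀ (j : Fin N) k, R k ≤ Setoid.ker ((pck s.Q (pre τ j)).cellv 1 k) := fun j k =>
    (hR k).trans (pck_cell s.Q _ 1 k)
  -- one step
  have hstep : ∀ j : Fin N, H (up1 (Lab.ofZ W) ((pck s.Q (ini τ j.2.le)).dg 1)) +
      (1 - zx (pck s.Q (pre τ j)) (Fin.last (j : ℕ)) (fun k => zFD (W k) (G j k))) ≤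
        H (up1 (Lab.ofZ W) ((pck s.Q (pre τ j)).dg 1)) + (if (j : ℕ) + 1 = N then ε else 0) := by
    intro j
    have a1 := row_step (hD j) j (hRp j) (hxo j)
    have a2 := hvol j _ (hxo j) (Lab.ofZ W) u4 hKl
    have a3 : lb (fun k => zFD (W k) (G j k)) = Lab.ofZ W := rfl
    rw [a3] at a1
    linarith
  -- the sum
  have key : ∀ m : ℕ, v ≤ m → ∀ hm : m ≤ N, (v : ℝ) + ∑ j ∈ univ.filter (fun j : Fin N => v ≤ j ∧ (j : ℕ) < m),
      (1 - zx (pck s.Q (pre τ j)) (Fin.last (j : ℕ)) (fun k => zFD (W k) (G j k))) ≤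
        H (up1 (Lab.ofZ W) ((pck s.Q (ini τ hm)).dg 1)) + (if m = N then ε else 0) := by
    intro m hm
    induction m, hm using Nat.le_induction with
    | base =>
      intro hm
      have e1 : univ.filter (fun j : Fin N => v ≤ j ∧ (j : ℕ) < v) = ∅ := by
        apply Finset.filter_eq_empty_iff.mpr
        rintro j _ ⟨h1, h2⟩
        omega
      rw [e1, Finset.sum_empty, add_zero, if_neg (Nat.ne_of_lt hvN), add_zero]
      exact hfull _ u4 hKl
    | succ m hm ih =>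
      intro hmN
      have h3 := ih (by omega)
      rw [if_neg (show ¬ m = N by omega), add_zero] at h3
      obtain ⟨j, hj⟩ : ∃ j : Fin N, j = ⟨m, hmN⟩ := ⟨_, rfl⟩
      have hjm : (j : ℕ) = m := by rw [hj]
      have h4 := hstep j
      have e1 : univ.filter (fun i : Fin N => v ≤ i ∧ (i : ℕ) < m + 1) =
          insert j (univ.filter (fun i : Fin N => v ≤ i ∧ (i : ℕ) < m)) := by
        ext i
        rw [Finset.mem_insert, Finset.mem_filter, Finset.mem_filter]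
        constructor
        · rintro ⟨_, h4, h5⟩
          by_cases h6 : (i : ℕ) < m
          · exact Or.inr ⟨Finset.mem_univ _, h4, h6⟩
          · exact Or.inl (Fin.ext (by rw [hjm]; omega))
        · rintro (h4 | ⟨_, h4, h5⟩)
          · rw [h4, hjm]
            exact ⟨Finset.mem_univ _, hm, Nat.lt_succ_self m⟩
          · exact ⟨Finset.mem_univ _, h4, by omega⟩
      have hnot : j ∉ univ.filter (fun i : Fin N => v ≤ i ∧ (i : ℕ) < m) := by
        rw [Finset.mem_filter, hjm]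
        rintro ⟨_, _, h5⟩
        exact lt_irrefl m h5
      rw [e1, Finset.sum_insert hnot]
      subst hj
      have e2 : pck s.Q (ini τ (show ((⟨m, hmN⟩ : Fin N) : ℕ) ≤ N from (⟨m, hmN⟩ : Fin N).2.le)) =
        pck s.Q (ini τ (show m ≤ N by omega)) := rfl
      have e3 : pck s.Q (pre τ ⟨m, hmN⟩) = pck s.Q (ini τ hmN) := rfl
      have h5 : H (up1 (Lab.ofZ W) ((pck s.Q (ini τ (show m ≤ N by omega))).dg 1)) +
        (1 - zx (pck s.Q (pre τ ⟨m, hmN⟩)) (Fin.last m) (fun k => zFD (W k) (G ⟨m, hmN⟩ k))) ≤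
        H (up1 (Lab.ofZ W) ((pck s.Q (ini τ hmN)).dg 1)) + (if m + 1 = N then ε else 0) := h4
      linarith
  have htot := key N hv le_rfl
  rw [if_pos rfl] at htot
  have e1 : univ.filter (fun j : Fin N => v ≤ j ∧ (j : ℕ) < N) = univ.filter (fun j : Fin N => v ≤ j) := by
    ext i
    rw [Finset.mem_filter, Finset.mem_filter]
    exact ⟨fun h => ⟨h.1, h.2.1⟩, fun h => ⟨h.1, h.2, i.2⟩⟩
  rw [e1] at htot
  have htot2 : H (up1 (Lab.ofZ W) ((pck s.Q (ini τ le_rfl)).dg 1)) ≤ H (up1 (Lab.ofZ W) (s.Q.dg 1)) :=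
    H_mono (up1_mono _ (pck_dg_le s.Q _ 1))
  refine ⟨W, D, fun j k => gG (W k) (G j k),
    fun j => 1 - zx (pck s.Q (pre τ j)) (Fin.last (j : ℕ)) (fun k => zFD (W k) (G j k)), u1,
    Eventually.of_forall u3, u4, ?_, ?_, ?_, ?_, ?_, ?_⟩
  · exact fun j _ => hD j
  · intro j _
    refine ⟨(gaq (pck s.Q (pre τ j)) (D j)).C + 1, by linarith [(gaq (pck s.Q (pre τ j)) (D j)).C0], ?_⟩
    filter_upwards [(hxo j).1.1 1 one_pos] with k hk w hw
    exact (hk.2.1 w hw).1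
  · intro j _
    exact Eventually.of_forall fun k w w' a b c d => gG_kn (W k) (G j k) w w' a b c d
  · intro j _ η hη
    exact phi_typ (hxo j).1.1 η hη
  · intro j _ e he
    have a1 := ul_max_le (Fin.last (j : ℕ)) (hxo j).1.1
    have a2 := max_UB (Fin.last (j : ℕ)) (hxo j).1.1
    exact ev_le_of_ul a2 a1 e he
  · intro e he
    exact hbud W _ (by linarith) e he

/-- ROWS FOR THE COPIES (81's `HRw`): visible K-labels -/
theorem hrw [Finite ι] (s : MSys S N (lin g) ι) {τ : Fin N → Fin N} (hτ : Function.Surjective τ) {v : ℕ} (hv : v ≤ N)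
    (hST : ∀ m, m < N → STu m) (ht : Gdn s fun k => Setoid.ker (s.Q.cellv 1 k))
    (hfull : ∀ l : Lab S, l.DMf (cndR s (fun k => Setoid.ker (s.Q.cellv 1 k)) 0) → (LC.kz (pcd s.Q)).ev l →
      (v : ℝ) ≤ H (up1 l ((pck s.Q (ini τ hv)).dg 1)))
    {V1 : ∀ k, Setoid (S.F k).Ω} (h1 : ∀ᶠ k in UF, Setoid.ker (s.Q.cellv 1 k) ⊓ (S.F k).Z ≤ V1 k)
    (h2 : ∀ i, PLe (fun k => fc (V1 k)) ((s.lf i).win 0)) (i : ι) : HRw s.Q (s.lf i) τ v V1 := by
  intro ε hε
  have h3 : (Lab.ofZ V1).DMf (cndR s (fun k => Setoid.ker (s.Q.cellv 1 k)) 0) := by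
    rw [Lab.ofZ_DMf]
    intro i
    rcases i with _ | i
    · have h4 := LC.kz_nul (kz_ofZ h1)
      exact (Lab.ofZ_DMf (A := fun _ : Unit => fun k => fc (Setoid.ker (s.Q.cellv 1 k))) V1).mp (fun _ => h4) ()
    · exact h2 i
  obtain ⟨W, D, A, a, w1, w2, w3, w4⟩ := rows_lit s (fun k => le_rfl) hτ hv hST ht hfull h1 h3 ε hε
  refine ⟨Lab.ofZ W, D, A, a, ?_, w3 (some i), w3 none, w4⟩
  filter_upwards [w2] with k hk
  exact fc_mono hk

end

end Pool.Agent.Helper30.NSL
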